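import Pool.Agent.W593.IR.Stm

/-! Project IR, part BIN: the interpolation inequality -/

set_option autoImplicit false

namespace Pool.Agent.W403.IR

open Finset Pool.Agent.W593.IR

lemma binom (k : ℕ) (ρ Q : ℝ) :
    ∑ j ∈ range (k + 1), (k.choose j : ℝ) * (1 - ρ) ^ (k - j) * ρ ^ j * (1 - Q ^ j) =
      1 - (1 - ρ + ρ * Q) ^ k := by
  have h1 : ∑ j ∈ range (k + 1), (k.choose j : ℝ) * (1 - ρ) ^ (k - j) * ρ ^ j = 1 := by
    have h := add_pow ρ (1 - ρ) k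
    rw [show ρ + (1 - ρ) = 1 by ring, one_pow] at h
    refine Eq.trans ?_ h.symm
    refine sum_congr rfl fun j _ => ?_
    ring
  have h2 : ∑ j ∈ range (k + 1), (k.choose j : ℝ) * (1 - ρ) ^ (k - j) * ρ ^ j * Q ^ j =
      (1 - ρ + ρ * Q) ^ k := by
    have h := add_pow (ρ * Q) (1 - ρ) k
    rw [show ρ * Q + (1 - ρ) = 1 - ρ + ρ * Q by ring] at h
    rw [h]
    refine sum_congr rfl fun j _ => ?_
    rw [mul_pow]
    ring
  calc ∑ j ∈ range (k + 1), (k.choose j : ℝ) * (1 - ρ) ^ (k - j) * ρ ^ j * (1 - Q ^ j) =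
      ∑ j ∈ range (k + 1), ((k.choose j : ℝ) * (1 - ρ) ^ (k - j) * ρ ^ j -
        (k.choose j : ℝ) * (1 - ρ) ^ (k - j) * ρ ^ j * Q ^ j) :=
        sum_congr rfl fun j _ => by ring
    _ = 1 - (1 - ρ + ρ * Q) ^ k := by rw [sum_sub_distrib, h1, h2]

theorem bin : S_BIN := by
  intro r C ρ p hr hC hρ0 hρ1 hp0 hp hpj hpr hpC
  have hr0 : (0 : ℝ) < r := by exact_mod_cast hr
  set Q : ℝ := 1 - 1 / ((r : ℝ) + 1) with hQ
  have hQ0 : 0 ≤ Q := by
    rw [hQ, sub_nonneg, div_le_one (by positivity)]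
    linarith
  have hQ1 : Q < 1 := by
    rw [hQ]
    have : 0 < 1 / ((r : ℝ) + 1) := by positivity
    linarith
  have hs : 0 < 1 - Q ^ r := by
    have : Q ^ r < 1 := pow_lt_one₀ hQ0 hQ1 (by omega)
    linarith
  set s : ℝ := 1 - Q ^ r with hsd
  set t : ℝ := p r / s with ht
  have ht0 : 0 ≤ t := div_nonneg (hp r).1 hs.le
  have ht1 : t ≤ 1 := by rw [ht, div_le_one hs]; exact hpr
  have hts : t * s = p r := by rw [ht]; field_simp
  have hpt : ∀ j, j ≤ r → p j ≤ t * (1 - Q ^ j) := by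
    intro j hj
    rcases Nat.eq_zero_or_pos j with rfl | hj0
    · rw [hp0, pow_zero]; simp
    · have h1 := hpj j hj0 hj
      rw [ht, div_mul_eq_mul_div, le_div_iff₀ hs]
      exact h1
  have hlast : p (r + 1) ≤ 1 - t * s / C := by
    have h1 : t * s / C ≤ 1 - p (r + 1) := by
      rw [hts, div_le_iff₀ hC]
      linarith
    linarith
  have hb := binom (r + 1) ρ Q
  rw [sum_range_succ] at hb
  simp only [Nat.choose_self, Nat.sub_self, pow_zero, Nat.cast_one, one_mul] at hb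
  rw [sum_range_succ]
  simp only [Nat.choose_self, Nat.sub_self, pow_zero, Nat.cast_one, one_mul]
  have hsum : ∑ j ∈ range (r + 1), ((r + 1).choose j : ℝ) * (1 - ρ) ^ (r + 1 - j) * ρ ^ j * p j ≤
      t * ∑ j ∈ range (r + 1), ((r + 1).choose j : ℝ) * (1 - ρ) ^ (r + 1 - j) * ρ ^ j *
        (1 - Q ^ j) := by
    rw [mul_sum]
    refine sum_le_sum fun j hj => ?_
    rw [mem_range] at hj
    have h1 := hpt j (by omega)
    have h2 : 0 ≤ ((r + 1).choose j : ℝ) * (1 - ρ) ^ (r + 1 - j) * ρ ^ j := by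
      have h3 : 0 ≤ 1 - ρ := by linarith
      positivity
    have h4 := mul_le_mul_of_nonneg_left h1 h2
    linarith
  have hlast' : ρ ^ (r + 1) * p (r + 1) ≤ ρ ^ (r + 1) * (1 - t * s / C) :=
    mul_le_mul_of_nonneg_left hlast (by positivity)
  have hlin : 1 - ρ + ρ * Q = 1 - ρ / ((r : ℝ) + 1) := by
    rw [hQ]; ring
  rw [hlin] at hb
  have hH : ∑ j ∈ range (r + 1), ((r + 1).choose j : ℝ) * (1 - ρ) ^ (r + 1 - j) * ρ ^ j *
      (1 - Q ^ j) = 1 - (1 - ρ / ((r : ℝ) + 1)) ^ (r + 1) - ρ ^ (r + 1) * (1 - Q ^ (r + 1)) := by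
    linarith
  rw [hH] at hsum
  have hBd1 : ρ ^ (r + 1) ≤ Bd (r + 1) C ρ := le_max_left _ _
  have hBd2 : 1 - (1 - ρ / ((r : ℝ) + 1)) ^ (r + 1) + ρ ^ (r + 1) * (Q ^ (r + 1) - s / C) ≤
      Bd (r + 1) C ρ := by
    unfold Bd
    push_cast
    exact le_max_right _ _
  have h5 := mul_le_mul_of_nonneg_left hBd1 (sub_nonneg.mpr ht1)
  have h6 := mul_le_mul_of_nonneg_left hBd2 ht0
  have h7 : t * (1 - (1 - ρ / ((r : ℝ) + 1)) ^ (r + 1) - ρ ^ (r + 1) * (1 - Q ^ (r + 1))) +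
      ρ ^ (r + 1) * (1 - t * s / C) = (1 - t) * ρ ^ (r + 1) +
      t * (1 - (1 - ρ / ((r : ℝ) + 1)) ^ (r + 1) + ρ ^ (r + 1) * (Q ^ (r + 1) - s / C)) := by
    ring
  linarith

end Pool.Agent.W403.IR
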